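import Pool.Agent.Q41.RA.PatGen

set_option autoImplicit false

/-!
# Multipartitions and eta-quotients modulo 2 on all progressions (MP_a3366f_nt)

Let `F_j = f_μ ^ α / f_1 ^ β` (`μ = μ_j` and so on) with `μ` odd, `α + β` odd and `α < β μ`; for
`α = 0` this is the generating function `1 / f_1 ^ β` of the `β`-multipartitions, `β` odd. Let
`s_j = μ α - β`, and let the `m_j ≥ 1` be such that
`s_j (m_l / g) ≢ s_l (m_j / g) (mod 24)`, `g = gcd(m_j, m_l)`, for `j ≠ l`. For every `M ≥ 1` there is a
constant `C` such that every nonzero linear combination modulo 2 of the coefficients `a_j(m_j n + i)`,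
`i < K`, takes both values on the `n ≡ ρ (mod M)` in every interval `[A, C (A + K)]`.

Method. By the theorem on joint patterns of eta-quotients (starting file
`MP_a3366f_nt/EtaQuotients`) it is enough that `F_j` is not identically even on any progression. This
is proved as in the file `MP_72e75e_nt/NoCongruence`, where `μ = 3`, `α = 2`, `β = 1`: a vanishing
relation between the values of `F` at the points `ζ q`, `ζ` the roots of unity of an order `m`, is an
identity over a function field of characteristic 2; its image under the flipping automorphism (which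
exchanges the cusps) has a unique term of smallest order if `α < β μ`. The classes modulo a power
of 2 are treated with `f_1 = f_1 ^ (2 ^ k) f_1 ^ (1 - 2 ^ k)`: the condition that the exponent of this
term is in the class which is projected to is `λ ^ 2 ≡ u` modulo a power of 2 with `u ≡ 1 (mod 8)` if
`α + β` is odd.
-/

namespace Pool.Agent.Results.MP_a3366f_nt.AllProgressions

open PowerSeries

/-- `f_d = ∏_{i ≥ 1} (1 - q ^ (d i))`: Mathlib's series `pentagonalSeries ℤ = ∏_{i ≥ 1} (1 - q ^ i)`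
in the variable `q ^ d` -/
noncomputable def f (d : ℕ) : ℤ⟦X⟧ :=
  PowerSeries.mk fun n => if d ∣ n then coeff (n / d) (pentagonalSeries ℤ) else 0

theorem result (k : ℕ) (μ α β : Fin k → ℕ) (hμ : ∀ j, Odd (μ j)) (hlt : ∀ j, α j < β j * μ j)
    (hpar : ∀ j, Odd (α j + β j)) (F : Fin k → ℤ⟦X⟧)
    (hF : ∀ j, F j * f 1 ^ β j = f (μ j) ^ α j) (m : Fin k → ℕ) (hm : ∀ j, 0 < m j)
    (hsep : ∀ j l, j ≠ l →
      ¬ (24 : ℤ) ∣ (μ j * α j - β j : ℤ) * (m l / Nat.gcd (m j) (m l) : ℕ) -
        (μ l * α l - β l : ℤ) * (m j / Nat.gcd (m j) (m l) : ℕ)) (M : ℕ) (hM : 0 < M) :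
    ∃ C : ℕ, ∀ (K : ℕ) (c : Fin k → ℕ → ZMod 2) (ρ : ℕ), (∃ j, ∃ i < K, c j i ≠ 0) →
      ∀ (κ : ZMod 2) (A : ℕ), ∃ n, A ≤ n ∧ n ≤ C * (A + K) ∧ n ≡ ρ [MOD M] ∧
        ∑ j, ∑ i ∈ Finset.range K, c j i * ((coeff (m j * n + i) (F j) : ℤ) : ZMod 2) = κ :=
  Pool.Agent.Q41.RA.patterns_gen μ α β hμ hlt hpar F hF m hm hsep M hM

end Pool.Agent.Results.MP_a3366f_nt.AllProgressions
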