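import Pool.Agent.Q41.PT.Final

set_option autoImplicit false

/-!
# How often the linear patterns of multipartition numbers modulo 2 take each value (MP_a3366f_nt)

Let `p_t (n)` be the number of `t`-multipartitions of `n`. Let `t_1, …, t_m` be distinct odd numbers
in one residue class modulo 3, let `c` be a nonzero array of elements `c_(j, i)` of `F_2`, `i ≤ L`, and
let `κ` be an element of `F_2`. Then for all `b, ρ, K` and all large `x` the number of the `n ≤ x`,
`n ≡ ρ` modulo `2 ^ b`, with `∑_(j, i) c_(j, i) p_(t_j) (n + i) = κ` in `F_2` is at least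
`√x (log log x) ^ K / log x`.

Method. Let `D = q ∏ (1 - q ^ n) ^ 24` modulo 2. For `a 2 ^ e = 3 k_t + t`, `a ∈ {1, 3}`, the product of
`∑ p_t (n) q ^ n` and `∏ (1 - q ^ (2 ^ e n)) ^ a` has the coefficient of `D ^ (k_t)` at
`8 n + k_t` as its coefficient at `n`. By the theory of Nicolas and Serre modulo 2 (starting files
`H307R2/OP`) the sum of the `D ^ (k_t)` with a common shift `8 i + k_t` has odd coefficients at all
products of distinct primes with a certain number of factors `≡ 3` and `≡ 5` modulo 8; its
coefficients at the numbers which are exactly divisible by enough primes `≡ 3` modulo 8 are even. By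
the Chinese remainder theorem there is a residue class in which the second fact applies to all shifts
except one; the theorem of Siegel and Walfisz gives many products of primes in this class to which the
first fact applies. Each of these `n` comes from a solution `n - 2 ^ e g` with `g` pentagonal (or
triangular), so the number of the solutions is at least the number of these `n` divided by the number
of the pentagonal numbers. The value `κ = 0` follows from the pattern multiplied by
`1 + q ^ (2 ^ b)`.
-/

namespace Pool.Agent.Results.MP_a3366f_nt.PatternCounts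

open Pool.Agent.Q41.PT

/-- the number of `t`-multipartitions of `n`: the coefficient of `q ^ n` in `∏ 1 / (1 - q ^ i) ^ t` -/
def multipartitions (t n : ℕ) : ℕ :=
  ∑ x ∈ Finset.Nat.antidiagonalTuple t n, ∏ i, Fintype.card (Nat.Partition (x i))

theorem result (m : ℕ) (t : Fin m → ℕ) (ht : Function.Injective t) (hodd : ∀ j, Odd (t j))
    (h3 : ∀ j j', t j ≡ t j' [MOD 3]) (L : ℕ) (c : Fin m → Fin (L + 1) → ZMod 2) (hc : c ≠ 0)
    (κ : ZMod 2) (b ρ K : ℕ) :
    ∃ x₀ : ℕ, ∀ x : ℕ, x₀ ≤ x →
      Real.sqrt x * Real.log (Real.log x) ^ K / Real.log x ≤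
        (((Finset.range (x + 1)).filter fun n => n % 2 ^ b = ρ % 2 ^ b ∧
          ∑ j, ∑ i : Fin (L + 1), c j i * (multipartitions (t j) (n + i) : ZMod 2) = κ).card : ℝ) := by
  classical
  obtain ⟨j0, hj0⟩ : ∃ j, c j ≠ 0 := by
    by_contra h
    push Not at h
    exact hc (funext h)
  obtain ⟨i0, hi0⟩ : ∃ i, c j0 i ≠ 0 := by
    by_contra h
    push Not at h
    exact hj0 (funext h)
  set c' : ℕ → ℕ → ZMod 2 := fun s i =>
    if h : ∃ j, t j = s then (if hi : i < L + 1 then c h.choose ⟨i, hi⟩ else 0) else 0 with hc'
  have key : ∀ j (i : Fin (L + 1)), c' (t j) i = c j i := by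
    intro j i
    have h : ∃ j', t j' = t j := ⟨j, rfl⟩
    simp only [hc']
    rw [dif_pos h, dif_pos i.2, ht h.choose_spec]
  have hpat : ∀ n, pat (Finset.univ.image t) L c' n =
      ∑ j, ∑ i : Fin (L + 1), c j i * (multipartitions (t j) (n + i) : ZMod 2) := by
    intro n
    unfold pat
    rw [Finset.sum_image fun _ _ _ _ h => ht h]
    refine Finset.sum_congr rfl fun j _ => ?_
    rw [← Fin.sum_univ_eq_sum_range
      (fun i => c' (t j) i * (Pool.Agent.H413R3.Part.mp (t j) (n + i) : ZMod 2)) (L + 1)]
    refine Finset.sum_congr rfl fun i _ => ?_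
    rw [key]
    rfl
  obtain ⟨x0, hx0⟩ := main (t j0 % 3) (Finset.univ.image t) (by
      intro s hs
      rw [Finset.mem_image] at hs
      obtain ⟨j, -, rfl⟩ := hs
      exact ⟨Nat.odd_iff.1 (hodd j), h3 j j0⟩) L c'
    ⟨t j0, Finset.mem_image_of_mem t (Finset.mem_univ j0), i0, by have := i0.2; omega, by
      rw [key]; exact hi0⟩ κ b ρ K
  refine ⟨x0, fun x hx => (hx0 x hx).trans (le_of_eq ?_)⟩
  congr 2
  unfold good
  refine Finset.filter_congr fun n _ => ?_
  rw [hpat]

end Pool.Agent.Results.MP_a3366f_nt.PatternCounts
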