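import Pool.Agent.Q167.NT.E

set_option autoImplicit false

/-!
# Multipartitions modulo 2: errors in the coefficients of Euler's series

`∑ p_t(n) q^n` is the `t`-th power of the reciprocal of Euler's series `f = ∏ (1 - q^m)`.  Modulo 2 the
coefficients of `f` (or of any other series with constant coefficient one) are changed at independent
random places, the place `k` with probability at least `c k^(-θ)`, `θ < 1`.  Then almost surely the
coefficients of all odd powers of the reciprocal behave jointly like independent random bits, along all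
arithmetic progressions and along all sparse sequences `n_j ≤ K (j + 1)^κ` with `θ κ < 1`.
-/

namespace Pool.Agent.Results.MP_a3366f_nt.RandomErrorsAllPowers

open Finset MeasureTheory ProbabilityTheory Filter Topology

/-- the coefficient of `q^n` modulo 2 in the `t`-th power of the reciprocal of `G + ∑ q^k`, the sum
over all `k ≥ 1` with `ω k = true` -/
noncomputable def coeffs (G : PowerSeries (ZMod 2)) (ω : ℕ → Bool) (t n : ℕ) : ZMod 2 :=
  PowerSeries.coeff n ((G + PowerSeries.mk fun k => if ω k = true ∧ 1 ≤ k then 1 else 0)⁻¹ ^ t)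

/-- all joint blocks of `r 1, r 3, r 5, ...` have the frequencies of independent random bits at the
places `n 0, n 1, ...` -/
def RandomLike (r : ℕ → ℕ → ZMod 2) (n : ℕ → ℕ) : Prop :=
  ∀ (T L : ℕ) (e : ℕ → ℕ → ZMod 2), Tendsto (fun J : ℕ =>
    (((range J).filter fun j => ∀ s < T, ∀ i < L, r (2 * s + 1) (n j + i) = e s i).card : ℝ) / J)
    atTop (𝓝 (1 / 2 ^ (T * L)))

/-- `∑ p(n) q^n` modulo 2 -/
noncomputable def partitions : PowerSeries (ZMod 2) :=
  PowerSeries.mk fun n => (Fintype.card (Nat.Partition n) : ZMod 2)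

/-- the number of `t`-multipartitions of `n`: the coefficient of `q^n` in `∏ 1 / (1 - q^m)^t` -/
def multipartitions (t n : ℕ) : ℕ :=
  ∑ x ∈ Finset.Nat.antidiagonalTuple t n, ∏ i, Fintype.card (Nat.Partition (x i))

theorem randomLike_of (G : PowerSeries (ZMod 2)) (ω : ℕ → Bool) (n : ℕ → ℕ)
    (h : ∀ T : Finset (ℕ × ℕ), Pool.Agent.Q167.NT.Adm T → Tendsto (fun J : ℕ =>
      (∑ j ∈ range J, Pool.Agent.Q167.NT.sn (Pool.Agent.Q167.NT.form G T) (n j) ω) / (J : ℝ))
      atTop (𝓝 0)) :
    RandomLike (coeffs G ω) n :=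
  fun T L e => Pool.Agent.Q167.NT.freq_odd G ω n h T L e

theorem result :
    -- errors of probability at least `c k ^ (-θ)`, sequences with `n_j ≤ K (j + 1) ^ κ`, `θ κ < 1`
    (∀ {Ω : Type} [MeasurableSpace Ω] (P : Measure Ω) [IsProbabilityMeasure P]
      (ξ : ℕ → Ω → Bool) (p : ℕ → ℝ), (∀ k, Measurable (ξ k)) → iIndepFun ξ P →
      (∀ k, P.real {ω | ξ k ω = true} = p k) →
      ∀ (G : PowerSeries (ZMod 2)), PowerSeries.constantCoeff G = 1 →
      ∀ c θ : ℝ, 0 < c → 0 < θ → θ < 1 →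
      (∀ k : ℕ, 1 ≤ k → c * (k : ℝ) ^ (-θ) ≤ p k ∧ c * (k : ℝ) ^ (-θ) ≤ 1 - p k) →
      (∀ (n : ℕ → ℕ) (K κ : ℝ), StrictMono n → 0 ≤ κ → θ * κ < 1 →
        (∀ j, (n j : ℝ) ≤ K * ((j : ℝ) + 1) ^ κ) →
        ∀ᵐ ω ∂P, RandomLike (coeffs G fun k => ξ k ω) n) ∧
      (∀ᵐ ω ∂P, ∀ q a : ℕ, 1 ≤ q → RandomLike (coeffs G fun k => ξ k ω) fun j => q * j + a)) ∧
    -- few changes suffice
    (∀ G : PowerSeries (ZMod 2), PowerSeries.constantCoeff G = 1 → ∀ η : ℝ, 0 < η →
      ∃ ω : ℕ → Bool,
        (∀ᶠ N : ℕ in atTop, (((Icc 1 N).filter fun k => ω k = true).card : ℝ) ≤ (N : ℝ) ^ η) ∧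
        ∀ q a : ℕ, 1 ≤ q → RandomLike (coeffs G ω) fun j => q * j + a) ∧
    -- multipartitions: no errors, `G` the reciprocal of `∑ p(n) q^n`
    (PowerSeries.constantCoeff partitions⁻¹ = 1 ∧
      ∀ t n, coeffs partitions⁻¹ (fun _ => false) t n = (multipartitions t n : ZMod 2)) := by
  refine ⟨?_, ?_, ?_, ?_⟩
  · intro Ω _ P _ ξ p hm hi hp G hG c θ hc hθ hθ1 hr
    have hB : Pool.Agent.Q167.NS.Bits P ξ p := ⟨hm, hi, hp⟩
    constructor
    · intro n K κ hn hκ0 hκ hK
      filter_upwards [Pool.Agent.Q167.NT.ae_forms hB hG hc hθ hθ1 hr n ⟨hn, K, κ, hκ0, hκ, hK⟩]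
        with ω hω
      exact randomLike_of G _ n hω
    · rw [ae_all_iff]
      intro q
      rw [ae_all_iff]
      intro a
      by_cases hq : 1 ≤ q
      · filter_upwards [Pool.Agent.Q167.NT.ae_forms hB hG hc hθ hθ1 hr _
          (Pool.Agent.Q167.NS.slow_ap hθ1 q a hq)] with ω hω
        exact fun _ => randomLike_of G _ _ hω
      · exact Eventually.of_forall fun ω h => absurd h hq
  · intro G hG η hη
    obtain ⟨ω, h1, h2⟩ := Pool.Agent.Q167.NT.few_changes G hG η hη
    exact ⟨ω, h1, fun q a hq => randomLike_of G ω _ (h2 q a hq)⟩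
  · have h0 : PowerSeries.constantCoeff partitions = 1 := by
      rw [← PowerSeries.coeff_zero_eq_constantCoeff_apply, partitions, PowerSeries.coeff_mk]
      simp
    rw [PowerSeries.constantCoeff_inv, h0, inv_one]
  · intro t n
    have h0 : PowerSeries.constantCoeff partitions ≠ 0 := by
      rw [← PowerSeries.coeff_zero_eq_constantCoeff_apply, partitions, PowerSeries.coeff_mk]
      simp
    have h1 : (PowerSeries.mk fun k : ℕ => if (fun _ : ℕ => false) k = true ∧ 1 ≤ k
        then (1 : ZMod 2) else 0) = 0 := by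
      ext k
      simp
    have h2 : (partitions⁻¹)⁻¹ = partitions := by
      have h3 := PowerSeries.mul_inv_cancel _ h0
      have h4 : PowerSeries.constantCoeff partitions⁻¹ ≠ 0 := by
        rw [PowerSeries.constantCoeff_inv]
        exact inv_ne_zero h0
      exact (PowerSeries.eq_inv_iff_mul_eq_one h4).2 h3 |>.symm
    unfold coeffs
    rw [h1, add_zero, h2, partitions, Pool.Agent.Q167.NT.coeff_pow_eq]
    rfl

end Pool.Agent.Results.MP_a3366f_nt.RandomErrorsAllPowers
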