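import Pool.Agent.Q163.PM.Av
import Pool.Agent.Y627.PT.R2

set_option autoImplicit false

/-!
# Joint parity patterns of all multipartition functions with randomly forbidden parts

Let `D` be a random subset of a set `T` containing the explicit set `thin` (at most `402 (log x / log 2) ^ 4` elements
up to `x`). Let `p_t^D(n)` be the number of `t`-multipartitions of `n` whose first partition has no part in `D`,
so `∑ p_t^D(n) q^n = f_1^(-t) ∏_{d ∈ D} (1 - q^d)`. Almost surely the vectors
`(p_t^D(n + i))`, `1 ≤ t ≤ K`, `0 ≤ i ≤ H`, are equidistributed modulo 2, for all `K` and `H`, along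
any given countable family of increasing sequences, with an error `O(N ^ (1/2) log(N) ^ 2)`.

Method. A combination of the `p_t^D(n + i)` is a coefficient of `B ∏_{d ∈ D} (1 - q^d) / f_1`, where `B` is a
combination over `F_2[q]` of the powers `f_1^(-t)`, `0 ≤ t < K`. These are linearly independent over `F_2[q]` (a
starting theorem of this row, joint patterns of the multipartition functions), so `B ≠ 0` and the coefficient is a
linear form in the numbers of partitions with no part in `D` with nonzero last coefficient. The means of the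
characters of such forms are bounded as in `MP_ebc808_nt.RandomlyForbiddenParts`.
-/

namespace Pool.Agent.Results.MP_a3366f_nt.RandomlyForbiddenParts

open MeasureTheory Pool.Agent.Q163.RX Pool.Agent.Q163.PM

/-- the number of partitions of `n` with no part in `D` -/
noncomputable def partitionsAvoiding (D : Set ℕ) (n : ℕ) : ℕ :=
  {p : n.Partition | ∀ i ∈ p.parts, i ∉ D}.ncard

/-- the number of `t`-multipartitions of `n`: the coefficient of `q ^ n` in `∏ 1 / (1 - q ^ i) ^ t` -/
def multipartitions (t n : ℕ) : ℕ :=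
  ∑ x ∈ Finset.Nat.antidiagonalTuple t n, ∏ i, Fintype.card (Nat.Partition (x i))

/-- the number of `(t + 1)`-multipartitions of `n` whose first partition has no part in `D` -/
noncomputable def multiAvoiding (D : Set ℕ) (t n : ℕ) : ℕ :=
  ∑ j ∈ Finset.range (n + 1), multipartitions t (n - j) * partitionsAvoiding D j

/-- the thin set -/
def thin : Set ℕ :=
  {t | ∃ r i c : ℕ, 1 ≤ r ∧ i ≤ r ∧ c ≤ 200 * r ^ 2 ∧ t = r ^ 2 * 2 ^ (r + i) + c * 4 ^ i}

/-- the random subset of `T` given by the coins `ω` -/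
def rset (T : Set ℕ) (ω : ℕ → Bool) : Set ℕ := {t ∈ T | ω t = true}

lemma card_filter_eq {p q : ℕ → Prop} {i1 : DecidablePred p} {i2 : DecidablePred q} (s : Finset ℕ)
    (h : ∀ j, p j ↔ q j) : (@Finset.filter _ p i1 s).card = (@Finset.filter _ q i2 s).card := by
  obtain rfl : p = q := funext fun j => propext (h j)
  rw [Subsingleton.elim i1 i2]

open PowerSeries in
lemma indep (K H : ℕ) (c : Fin K → Fin (H + 1) → ZMod 2) (hc : c ≠ 0) :
    ∃ x, wc (fun (τ : Fin K) n => ((multipartitions τ n : ℕ) : ZMod 2)) H c x ≠ 0 := by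
  by_contra hcon
  push Not at hcon
  obtain ⟨C, hC⟩ := Pool.Agent.Y627.PT.joint K
  obtain ⟨n, _, _, h3⟩ := hC H c hc 1 0
  have hP : ∀ j, coeff j Pool.Agent.TH693.PP.P = (Fintype.card (Nat.Partition j) : ZMod 2) := fun j => by
    unfold Pool.Agent.TH693.PP.P
    exact coeff_mk _ _
  have h1 : ∀ (τ m : ℕ), cv (fun _ n => (Fintype.card (Nat.Partition n) : ZMod 2))
      (fun n => ((multipartitions τ n : ℕ) : ZMod 2)) m (fun _ => true) =
      coeff m (Pool.Agent.TH693.PP.P ^ (τ + 1)) := by
    intro τ m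
    rw [pow_succ, coeff_mul, Finset.Nat.sum_antidiagonal_eq_sum_range_succ_mk]
    unfold cv
    rw [← Finset.sum_range_reflect]
    refine Finset.sum_congr rfl fun j hj => ?_
    have hj' := Finset.mem_range.1 hj
    have e1 : m + 1 - 1 - j = m - j := by omega
    have e2 : m - (m - j) = j := by omega
    rw [e1, e2, Pool.Agent.TH693.QQ.coeff_P_pow, hP]
    rfl
  have h2 := comb (fun _ n => (Fintype.card (Nat.Partition n) : ZMod 2))
    (fun (τ : Fin K) n => ((multipartitions τ n : ℕ) : ZMod 2)) H c n (fun _ => true)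
  rw [Finset.sum_eq_zero (s := Finset.range _) fun j _ => by rw [hcon, zero_mul]] at h2
  rw [Finset.sum_congr rfl fun t _ => Finset.sum_congr rfl fun i _ => by rw [← h1]] at h3
  rw [h2] at h3
  exact zero_ne_one h3

theorem result :
    (∀ x : ℕ, (thin ∩ Set.Icc 1 x).ncard ≤ 402 * Nat.log 2 x ^ 4) ∧
    ∀ T : Set ℕ, thin ⊆ T → ∀ a : ℕ → ℕ → ℕ, (∀ l, StrictMono (a l)) →
      ∀ᵐ ω ∂cm, ∀ (l K H : ℕ) (e : Fin K → Fin (H + 1) → ZMod 2), ∃ C : ℝ, ∀ N : ℕ,
        |(((Finset.range N).filter fun j => ∀ (t : Fin K) (i : Fin (H + 1)),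
            ((multiAvoiding (rset T ω) (t : ℕ) (a l j + (i : ℕ)) : ℕ) : ZMod 2) = e t i).card : ℝ) -
          N / 2 ^ (K * (H + 1))| ≤ C * (Real.sqrt N * Real.log (N + 1) ^ 2) := by
  classical
  refine ⟨count_T0, fun T hT a ha => ?_⟩
  have hrich : Rich T := rich_T0.mono hT
  rw [ae_all_iff]
  intro l
  rw [ae_all_iff]
  intro K
  rw [ae_all_iff]
  intro H
  have h1 := joint (fam_av 2 T) hrich (fun (τ : Fin K) n => ((multipartitions τ n : ℕ) : ZMod 2)) H
    (indep K H) (a l) (ha l)
  filter_upwards [h1] with ω hω e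
  obtain ⟨C, hC⟩ := hω e
  refine ⟨C, fun N => ?_⟩
  refine le_trans (le_of_eq ?_) (hC N)
  rw [Fintype.card_fin]
  push_cast
  congr 3
  refine card_filter_eq _ fun j => ?_
  have h2 : ∀ (τ n : ℕ), cv (fun ω n => ((av (sub T ω) n : ℕ) : ZMod 2))
      (fun n => ((multipartitions τ n : ℕ) : ZMod 2)) n ω = ((multiAvoiding (rset T ω) τ n : ℕ) : ZMod 2) := by
    intro τ n
    unfold cv multiAvoiding
    push_cast
    rfl
  constructor
  · intro h τ i
    rw [h2]
    exact h τ i
  · intro h τ i
    rw [← h2]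
    exact h τ i

end Pool.Agent.Results.MP_a3366f_nt.RandomlyForbiddenParts
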